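import Mathlib
import Pool.Agent.Q269.Jes.Shuf

/-!
# Miyazaki's shuffled equation has no solution for almost all pairs, also on each line `f - g = d`

The equation `(f²+g²)^x + (2fg)^y = (f²-g²)^z` with coprime `f > g > 0` of opposite parity.
-/

namespace Pool.Agent.Results.MP_d2d93c_nt.AlmostAllPairs

open Filter Topology

/-- The pair has a solution in positive integers. -/
def Solvable (f g : ℕ) : Prop := ∃ x y z : ℕ, 0 < x ∧ 0 < y ∧ 0 < z ∧
  ((f : ℤ) ^ 2 + (g : ℤ) ^ 2) ^ x + (2 * (f : ℤ) * (g : ℤ)) ^ y = ((f : ℤ) ^ 2 - (g : ℤ) ^ 2) ^ z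

/-- The pairs of the problem with `f ≤ N`. -/
def Pairs (N : ℕ) : Set (ℕ × ℕ) :=
  {w | 0 < w.2 ∧ w.2 < w.1 ∧ w.1 ≤ N ∧ Nat.Coprime w.1 w.2 ∧ (w.1 + w.2) % 2 = 1}

theorem solvable_iff {f g : ℕ} (h : g < f) : Solvable f g ↔ Q269.Jes.Sol f g := by
  have hle : g ^ 2 ≤ f ^ 2 := Nat.pow_le_pow_left h.le 2
  unfold Solvable Q269.Jes.Sol
  constructor
  · rintro ⟨x, y, z, hx, hy, hz, e⟩
    refine ⟨x, y, z, hx, hy, hz, ?_⟩
    zify [hle]
    exact e
  · rintro ⟨x, y, z, hx, hy, hz, e⟩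
    refine ⟨x, y, z, hx, hy, hz, ?_⟩
    zify [hle] at e
    exact e

theorem Pairs_finite (N : ℕ) : (Pairs N).Finite :=
  (Q269.Jes.Bx_finite N).subset (by
    rintro ⟨f, g⟩ ⟨h1, h2, h3, h4, h5⟩
    simp only [Q269.Jes.Bx, Set.mem_prod, Set.mem_Ioc] at *
    omega)

theorem Pairs_lower {N : ℕ} (hN : 2 ≤ N) : (N : ℝ) ^ 2 / 64 ≤ (Pairs N).ncard := by
  classical
  set K := N / 2 with hK
  have h1 : (Q269.Jes.Cop K).card ≤ (Pairs N).ncard := by
    rw [← Set.ncard_coe_finset]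
    apply Set.ncard_le_ncard_of_injOn (fun w => (2 * w.1, 2 * w.2 - 1)) _ _ (Pairs_finite N)
    · rintro ⟨i, j⟩ h
      rw [Finset.mem_coe] at h
      simp only [Q269.Jes.Cop, Q269.Jes.TT, Finset.mem_filter, Finset.mem_product,
        Finset.mem_Icc] at h
      obtain ⟨⟨⟨⟨h1, h2⟩, h3, h4⟩, h5⟩, hco⟩ := h
      simp only [Pairs, Set.mem_ofPred_eq]
      exact ⟨by omega, by omega, by omega, hco, by omega⟩
    · rintro ⟨i, j⟩ h ⟨i', j'⟩ h' heq
      rw [Finset.mem_coe] at h h'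
      simp only [Q269.Jes.Cop, Q269.Jes.TT, Finset.mem_filter, Finset.mem_product,
        Finset.mem_Icc] at h h'
      simp only [Prod.mk.injEq] at heq
      rw [Prod.mk.injEq]
      omega
  have h2 := Q269.Jes.Cop_card K
  have h3 : ((Q269.Jes.Cop K).card : ℝ) ≤ (Pairs N).ncard := by exact_mod_cast h1
  have h4 : N ≤ 4 * K := by omega
  have h5 : (N : ℝ) ≤ 4 * K := by exact_mod_cast h4
  have h6 : (N : ℝ) ^ 2 ≤ (4 * K) ^ 2 := pow_le_pow_left₀ (Nat.cast_nonneg _) h5 2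
  linarith

/-- **Miyazaki's shuffled equation for almost all pairs.**
(1) If a prime `p ≡ 7 (mod 8)` divides `f - g`, there is no solution.
(2) For every odd `d > 1` the set of the `g` coprime to `d` such that the pair `(g + d, g)` has a
solution has density zero. (For `d = 1` the question is settled.)
(3) The proportion of the pairs with a solution among all the pairs with `f ≤ N` tends to zero; the
number of all the pairs is at least `N ^ 2 / 64` for `N ≥ 2`. -/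
theorem result :
    (∀ f g p : ℕ, g < f → Nat.Coprime f g → p.Prime → p % 8 = 7 → p ∣ f - g → ¬ Solvable f g) ∧
    (∀ d : ℕ, Odd d → 1 < d → Tendsto (fun N : ℕ =>
      (({g : ℕ | 0 < g ∧ g ≤ N ∧ Nat.Coprime g d ∧ Solvable (g + d) g}.ncard : ℕ) : ℝ) / N)
      atTop (𝓝 0)) ∧
    (∀ N : ℕ, 2 ≤ N → (N : ℝ) ^ 2 / 64 ≤ (Pairs N).ncard) ∧
    Tendsto (fun N : ℕ => ({w ∈ Pairs N | Solvable w.1 w.2}.ncard : ℝ) / (Pairs N).ncard)
      atTop (𝓝 0) := by
  refine ⟨?_, ?_, fun N hN => Pairs_lower hN, ?_⟩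
  · intro f g p hgf hco hp hp8 hdvd
    rw [solvable_iff hgf]
    apply Q269.Jes.no_sol_seven hco hgf hp hp8
    have h1 : ((f - g : ℕ) : ZMod p) = 0 := (ZMod.natCast_eq_zero_iff _ _).2 hdvd
    rw [Nat.cast_sub hgf.le] at h1
    exact sub_eq_zero.1 h1
  · intro d hd hd1
    rw [Metric.tendsto_atTop]
    intro ε hε
    obtain ⟨N0, hN0⟩ := Q269.Jes.line_density hd hd1 (show 0 < ε / 2 by positivity)
    refine ⟨max N0 1, fun N hN => ?_⟩
    have hN1 : (0 : ℝ) < N := by exact_mod_cast (le_max_right N0 1).trans hN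
    have h1 := hN0 N ((le_max_left _ _).trans hN)
    have h2 : {g : ℕ | 0 < g ∧ g ≤ N ∧ Nat.Coprime g d ∧ Solvable (g + d) g} =
        {g : ℕ | (g + d).Coprime g ∧ Q269.Jes.Sol (g + d) g} ∩ Set.Ioc 0 N := by
      ext g
      simp only [Set.mem_ofPred_eq, Set.mem_inter_iff, Set.mem_Ioc]
      rw [solvable_iff (show g < g + d by omega), Nat.coprime_self_add_left, Nat.coprime_comm]
      tauto
    rw [h2, Real.dist_eq, sub_zero, abs_of_nonneg (by positivity), div_lt_iff₀ hN1]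
    have h3 : ε / 2 * (N : ℝ) < ε * N := by nlinarith
    linarith
  · rw [Metric.tendsto_atTop]
    intro ε hε
    obtain ⟨N0, hN0⟩ := Q269.Jes.pair_density (show 0 < ε / 128 by positivity)
    refine ⟨max N0 2, fun N hN => ?_⟩
    have hN2 : 2 ≤ N := (le_max_right N0 2).trans hN
    have h1 := hN0 N ((le_max_left _ _).trans hN)
    have h2 := Pairs_lower hN2
    have hNR : (0 : ℝ) < N := by exact_mod_cast (by omega : 0 < N)
    have hpos : (0 : ℝ) < (Pairs N).ncard := lt_of_lt_of_le (by positivity) h2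
    have h3 : {w ∈ Pairs N | Solvable w.1 w.2} ⊆
        {w : ℕ × ℕ | w.1.Coprime w.2 ∧ w.2 < w.1 ∧ Q269.Jes.Sol w.1 w.2} ∩ Q269.Jes.Bx N := by
      rintro ⟨f, g⟩ ⟨⟨h4, h5, h6, h7, h8⟩, h9⟩
      simp only at h4 h5 h6 h7 h8 h9
      refine ⟨⟨h7, h5, (solvable_iff h5).1 h9⟩, ?_⟩
      simp only [Q269.Jes.Bx, Set.mem_prod, Set.mem_Ioc]
      omega
    have h4 : ({w ∈ Pairs N | Solvable w.1 w.2}.ncard : ℝ) ≤ ε / 128 * (N : ℝ) ^ 2 := by
      refine le_trans ?_ h1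
      exact_mod_cast Set.ncard_le_ncard h3 ((Q269.Jes.Bx_finite N).subset Set.inter_subset_right)
    rw [Real.dist_eq, sub_zero, abs_of_nonneg (by positivity), div_lt_iff₀ hpos]
    have h5 : ε * ((N : ℝ) ^ 2 / 64) ≤ ε * (Pairs N).ncard := mul_le_mul_of_nonneg_left h2 hε.le
    have h6 : ε / 128 * (N : ℝ) ^ 2 < ε * ((N : ℝ) ^ 2 / 64) := by
      have : 0 < ε * (N : ℝ) ^ 2 := by positivity
      linarith
    linarith

end Pool.Agent.Results.MP_d2d93c_nt.AlmostAllPairs
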